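import Mathlib

set_option autoImplicit false

namespace Pool.Agent.H.MP_808d7a_gt

open Set
open scoped Pointwise

variable {n : ℕ}

/-- polar set -/
def pol (S : Set (EuclideanSpace ℝ (Fin n))) : Set (EuclideanSpace ℝ (Fin n)) :=
  {y | ∀ x ∈ S, inner ℝ x y ≤ 1}

/-- the pair of arithmetic and harmonic iterates -/
def AH (K T : Set (EuclideanSpace ℝ (Fin n))) :
    ℕ → Set (EuclideanSpace ℝ (Fin n)) × Set (EuclideanSpace ℝ (Fin n))
  | 0 => (K, T)
  | k + 1 => ((1 / 2 : ℝ) • ((AH K T k).1 + (AH K T k).2),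
      pol ((1 / 2 : ℝ) • (pol (AH K T k).1 + pol (AH K T k).2)))

/-- geometric mean -/
def G (K T : Set (EuclideanSpace ℝ (Fin n))) : Set (EuclideanSpace ℝ (Fin n)) :=
  ⋂ k, (AH K T (k + 1)).1

/-- auxiliary dual sequence -/
def D (K T : Set (EuclideanSpace ℝ (Fin n))) : ℕ → Set (EuclideanSpace ℝ (Fin n))
  | 0 => pol T
  | k + 1 => (1 / 2 : ℝ) • (pol (AH K T k).1 + D K T k)

variable {K T K' T' S S' : Set (EuclideanSpace ℝ (Fin n))}

theorem mid {x : EuclideanSpace ℝ (Fin n)} :
    x ∈ (1 / 2 : ℝ) • (S + S') ↔ ∃ a ∈ S, ∃ b ∈ S', x = (1 / 2 : ℝ) • (a + b) :=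
  ⟨fun ⟨_, ⟨a, ha, b, hb, e⟩, e'⟩ => ⟨a, ha, b, hb, by rw [← e', ← e]⟩,
    fun ⟨a, ha, b, hb, e⟩ => ⟨_, ⟨a, ha, b, hb, rfl⟩, e.symm⟩⟩

theorem pol_cvx : Convex ℝ (pol S) := fun x hx y hy a b ha hb hab z hz => by
  rw [inner_add_right, real_inner_smul_right, real_inner_smul_right]
  nlinarith [hx z hz, hy z hz]

theorem D_cvx : ∀ k, Convex ℝ (D K T k)
  | 0 => pol_cvx
  | k + 1 => (pol_cvx.add (D_cvx k)).smul _

theorem D_sub : ∀ k, D K T k ⊆ pol (AH K T k).2
  | 0 => subset_rfl
  | k + 1 => fun w hw z hz => by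
    obtain ⟨a, ha, b, hb, rfl⟩ := mid.1 hw
    rw [real_inner_comm]
    exact hz _ (mid.2 ⟨a, ha, b, D_sub k hb, rfl⟩)

theorem step {β : ℝ} {m : ℕ} (h : ∀ x ∈ (AH K T m).1, β⁻¹ • x ∈ D K T m) (j : ℕ) :
    ∀ x ∈ (AH K T (m + j)).1, β⁻¹ • x ∈ D K T (m + j) := by
  induction j with
  | zero => exact h
  | succ j ih =>
    intro x hx
    obtain ⟨a, ha, b, hb, rfl⟩ := mid.1 hx
    refine mid.2 ⟨β⁻¹ • b, fun y hy => ?_, β⁻¹ • a, ih a ha, by module⟩
    have := D_sub _ (ih y hy) b hb
    rwa [real_inner_smul_right, real_inner_comm, ← real_inner_smul_right] at this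

theorem fn {π : EuclideanSpace ℝ (Fin n) →ₗ[ℝ] EuclideanSpace ℝ (Fin n)}
    (hπ : ∀ x y, inner ℝ (π x) y = inner ℝ x (π y)) (h1 : MapsTo π K K') (h2 : MapsTo π T T') (k : ℕ) :
    MapsTo π (AH K T k).1 (AH K' T' k).1 ∧ MapsTo π (AH K T k).2 (AH K' T' k).2 := by
  induction k with
  | zero => exact ⟨h1, h2⟩
  | succ k ih =>
    refine ⟨fun x hx => ?_, fun x hx w hw => ?_⟩
    · obtain ⟨a, ha, b, hb, rfl⟩ := mid.1 hx
      exact mid.2 ⟨_, ih.1 ha, _, ih.2 hb, by rw [map_smul, map_add]⟩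
    · obtain ⟨a, ha, b, hb, rfl⟩ := mid.1 hw
      rw [← hπ]
      exact hx _ (mid.2 ⟨π a, fun y hy => hπ y a ▸ ha _ (ih.1 hy), π b,
        fun y hy => hπ y b ▸ hb _ (ih.2 hy), by rw [map_smul, map_add]⟩)

theorem bdd (h : T ⊆ K) (k : ℕ) : (AH K T k).1 ⊆ pol (pol K) ∧ (AH K T k).2 ⊆ pol (pol K) ∧
    pol K ⊆ D K T k := by
  have e : ∀ x : EuclideanSpace ℝ (Fin n), x = (1 / 2 : ℝ) • (x + x) := fun x => by module
  have f : ∀ S : Set (EuclideanSpace ℝ (Fin n)), S ⊆ pol (pol K) → pol K ⊆ pol S :=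
    fun S hS w hw x hx => real_inner_comm x w ▸ hS hx w hw
  induction k with
  | zero =>
    exact ⟨fun x hx w hw => real_inner_comm w x ▸ hw x hx,
      fun x hx w hw => real_inner_comm w x ▸ hw x (h hx), fun w hw x hx => hw x (h hx)⟩
  | succ k ih =>
    refine ⟨fun x hx => ?_, fun x hx w hw => hx w (mid.2 ⟨w, f _ ih.1 hw, w, f _ ih.2.1 hw, e w⟩),
      fun w hw => mid.2 ⟨w, f _ ih.1 hw, w, ih.2.2 hw, e w⟩⟩
    obtain ⟨a, ha, b, hb, rfl⟩ := mid.1 hx
    rw [smul_add]
    exact pol_cvx (ih.1 ha) (ih.2.1 hb) (by norm_num) (by norm_num) (by norm_num)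

theorem fin (h : T ⊆ K) {δ β : ℝ} (hδ : 0 < δ) (hβ : 0 < β) (h' : ∀ x ∈ K, δ • x ∈ T) {m : ℕ}
    (H : ∀ x ∈ (AH K T m).1, β⁻¹ • x ∈ D K T m) : G K T ⊆ Metric.closedBall 0 √β := by
  intro x hx
  rw [G, mem_iInter] at hx
  have h0 := (bdd h 1).1 (hx 0)
  have key : ∀ k, ∀ w ∈ D K T k, inner ℝ w x ≤ 1 + (1 / 2) ^ k / δ := by
    intro k
    induction k with
    | zero =>
      intro w hw
      have := h0 (δ • w) fun y hy => by
        simpa only [real_inner_smul_left, real_inner_smul_right] using hw _ (h' y hy)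
      rw [real_inner_smul_left, ← le_div_iff₀' hδ] at this
      rw [pow_zero]
      linarith
    | succ k ih =>
      intro w hw
      obtain ⟨a, ha, b, hb, rfl⟩ := mid.1 hw
      have : inner ℝ a x ≤ 1 := by
        cases k with
        | zero => exact h0 a ha
        | succ k => exact real_inner_comm a x ▸ ha x (hx k)
      rw [real_inner_smul_left, inner_add_left, pow_succ, mul_div_right_comm]
      linarith [ih b hb]
  rw [mem_closedBall_zero_iff]
  refine Real.le_sqrt_of_sq_le ?_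
  have lim : Filter.Tendsto (fun j : ℕ => 1 + (1 / 2 : ℝ) ^ (m + (j + 1)) / δ) Filter.atTop
      (nhds (1 + 0 / δ)) :=
    (((tendsto_pow_atTop_nhds_zero_of_lt_one (by norm_num) (by norm_num)).comp
      (Filter.tendsto_atTop_mono (fun j => by simp only [id]; omega) Filter.tendsto_id)).div_const δ).const_add 1
  have := ge_of_tendsto' lim fun j => key _ _ (step H (j + 1) x (hx (m + j)))
  rwa [real_inner_smul_left, real_inner_self_eq_norm_sq, zero_div, add_zero, inv_mul_le_iff₀ hβ,
    mul_one] at this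

/-- coordinate box -/
def Box (b : Fin n → ℝ) : Set (EuclideanSpace ℝ (Fin n)) := {x | ∀ i, |x i| ≤ b i}

theorem ind (s : Finset (Fin n)) : ∀ β : ℝ, 1 < β → ∃ (b c : Fin n → ℝ) (δ : ℝ) (m : ℕ), 0 < δ ∧
    (∀ i, 0 ≤ c i ∧ c i ≤ b i ∧ δ * b i ≤ c i ∧ (i ∈ s → b i * c i = 1) ∧ (i ∉ s → b i = 0)) ∧
    ∀ x ∈ (AH (Box b) (Box c) m).1, β⁻¹ • x ∈ D (Box b) (Box c) m := by
  induction s using Finset.induction_on with
  | empty =>
    refine fun β _ => ⟨0, 0, 1, 0, one_pos, by simp, fun x _ y hy => ?_⟩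
    rw [show y = 0 from PiLp.ext fun i => abs_nonpos_iff.1 (hy i), inner_zero_left]
    exact zero_le_one
  | insert i s hi ih =>
    intro β hβ
    obtain ⟨γ, h1, h2⟩ := exists_between hβ
    obtain ⟨b, c, δ, m0, hδ, hb, H⟩ := ih γ h1
    obtain ⟨j, hj⟩ := exists_pow_lt_of_lt_one (show 0 < (β - γ) * δ / γ by
      have := sub_pos.2 h2; positivity) (show (1 / 2 : ℝ) < 1 by norm_num)
    replace H := step H j
    replace hj : (1 / 2 : ℝ) ^ (m0 + j) ≤ (β - γ) * δ / γ :=
      (pow_le_pow_of_le_one (by norm_num) (by norm_num) (by omega)).trans hj.le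
    generalize m0 + j = m at H hj
    obtain ⟨M, M1, M2⟩ : ∃ M : ℝ, 1 ≤ M ∧ 4 ^ m ≤ (γ - 1) * M :=
      ⟨max 1 (4 ^ m / (γ - 1)), le_max_left _ _,
        (div_le_iff₀' (by linarith)).1 (le_max_right _ _)⟩
    have M0 : 0 < M := by linarith
    let e : EuclideanSpace ℝ (Fin n) := EuclideanSpace.single i 1
    have he : ∀ x, inner ℝ x e = x i := fun x => by simp [e, EuclideanSpace.inner_single_right]
    let π : EuclideanSpace ℝ (Fin n) →ₗ[ℝ] EuclideanSpace ℝ (Fin n) :=
      LinearMap.id - (innerₗ _ e).smulRight e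
    have p0 : ∀ x, π x = x - x i • e := fun x => by
      simp only [π, LinearMap.sub_apply, LinearMap.id_apply, LinearMap.smulRight_apply,
        innerₗ_apply_apply, real_inner_comm, he]
    have hπ : ∀ x y, inner ℝ (π x) y = inner ℝ x (π y) := fun x y => by
      rw [p0, p0, inner_sub_left, inner_sub_right, real_inner_smul_left, real_inner_smul_right,
        real_inner_comm y e, he, he, mul_comm]
    have mp : ∀ (d : Fin n → ℝ) (r : ℝ), 0 ≤ d i → MapsTo π (Box (Function.update d i r)) (Box d) :=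
      fun d r hd x hx k => by
        by_cases hk : k = i
        · simpa [p0, e, hk] using hd
        · simpa [p0, e, hk] using hx k
    have m1 := mp b M ((hb i).1.trans (hb i).2.1)
    have F := fn hπ m1 (mp c M⁻¹ (hb i).1)
    have le : ∀ k, Function.update c i M⁻¹ k ≤ Function.update b i M k := fun k => by
      by_cases hk : k = i
      · simpa [hk] using (inv_le_one_of_one_le₀ M1).trans M1
      · simpa [hk] using (hb k).2.1
    have B := bdd (K := Box (Function.update b i M)) (T := Box (Function.update c i M⁻¹))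
      fun x hx k => (hx k).trans (le k)
    refine ⟨Function.update b i M, Function.update c i M⁻¹, min δ (M⁻¹ * M⁻¹), m, by positivity,
      fun k => ?_, ?_⟩
    · by_cases hk : k = i
      · subst hk
        simp only [Function.update_self]
        refine ⟨by positivity, (inv_le_one_of_one_le₀ M1).trans M1,
          (mul_le_mul_of_nonneg_right (min_le_right _ _) M0.le).trans_eq (by field_simp),
          fun _ => mul_inv_cancel₀ M0.ne', fun h => absurd (Finset.mem_insert_self _ _) h⟩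
      · obtain ⟨a1, a2, a3, a4, a5⟩ := hb k
        simp only [Function.update_of_ne hk, Finset.mem_insert, hk, false_or]
        exact ⟨a1, a2, (mul_le_mul_of_nonneg_right (min_le_left _ _) (a1.trans a2)).trans a3, a4, a5⟩
    set K := Box (Function.update b i M)
    set T := Box (Function.update c i M⁻¹)
    have L5 : ∀ k, ∀ w ∈ D (Box b) (Box c) k, ∀ t : ℝ, |t| ≤ 1 → ∃ v ∈ pol (Box c),
        π w - (1 / 2 : ℝ) ^ k • π v + ((1 / 2) ^ k * t * M) • e ∈ D K T k := by
      intro k
      induction k with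
      | zero =>
        refine fun w hw t ht => ⟨w, hw, fun y hy => ?_⟩
        have := hy i
        rw [Function.update_self, ← one_div, le_div_iff₀ M0] at this
        simp only [pow_zero, one_smul, sub_self, zero_add, one_mul, real_inner_smul_right, he]
        refine (le_abs_self _).trans ?_
        rw [abs_mul, abs_mul, abs_of_pos M0]
        nlinarith [abs_nonneg t, abs_nonneg (y i)]
      | succ k ih =>
        intro w hw t ht
        obtain ⟨a, ha, u, hu, rfl⟩ := mid.1 hw
        obtain ⟨v, hv, hv'⟩ := ih u hu t ht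
        refine ⟨v, hv, mid.2 ⟨π a, fun y hy => hπ y a ▸ ha _ ((F k).1 hy), _, hv', ?_⟩⟩
        rw [map_smul, map_add, pow_succ]
        module
    have L3 : ∀ k, ∀ t : ℝ, |t| ≤ 1 → ((1 / 2) ^ k * t * M) • e ∈ D K T k := by
      intro k t ht
      induction k with
      | zero =>
        intro y hy
        have := hy i
        rw [Function.update_self, ← one_div, le_div_iff₀ M0] at this
        simp only [pow_zero, one_mul, real_inner_smul_right, he]
        refine (le_abs_self _).trans ?_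
        rw [abs_mul, abs_mul, abs_of_pos M0]
        nlinarith [abs_nonneg t, abs_nonneg (y i)]
      | succ k ih => exact mid.2 ⟨0, fun _ _ => by simp, _, ih, by rw [pow_succ]; module⟩
    have L4 : ∀ k, ∀ x ∈ (AH K T k).1, |x i| ≤ (1 / 2) ^ k * M + 2 ^ k / M := by
      intro k
      induction k with
      | zero =>
        intro x hx
        have := hx i
        rw [Function.update_self] at this
        have : 0 ≤ 2 ^ 0 / M := by positivity
        linarith
      | succ k ih =>
        intro x hx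
        obtain ⟨a, ha, z, hz, rfl⟩ := mid.1 hx
        have q : ∀ t : ℝ, |t| ≤ 1 → t * z i ≤ 2 ^ k / M := fun t ht => by
          have := D_sub k (L3 k t ht) z hz
          rw [real_inner_smul_right, he, one_div, inv_pow] at this
          rw [le_div_iff₀ M0]
          rw [mul_assoc, mul_assoc, inv_mul_le_iff₀ (by positivity)] at this
          linarith
        have q' : |z i| ≤ 2 ^ k / M :=
          abs_le.2 ⟨by linarith [q (-1) (by simp)], by linarith [q 1 (by simp)]⟩
        have : 0 ≤ 2 ^ k / M := by positivity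
        simp only [PiLp.smul_apply, PiLp.add_apply, smul_eq_mul, pow_succ, mul_div_right_comm]
        rw [abs_mul, abs_of_pos (by norm_num : (0 : ℝ) < 1 / 2)]
        linarith [abs_add_le (a i) (z i), ih a ha]
    intro x hx
    have γ0 : 0 < γ := by linarith
    have β0 : 0 < β := by linarith
    obtain ⟨v, hv, hv'⟩ := L5 m _ (H _ ((F m).1 hx)) (x i / (γ * (1 / 2) ^ m * M)) (by
      rw [abs_div, abs_of_pos (a := _ * M) (by positivity), div_le_one (by positivity)]
      refine (L4 m x hx).trans ?_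
      have : (2 : ℝ) ^ m / M ≤ (γ - 1) * (1 / 2) ^ m * M := by
        rw [div_le_iff₀ M0, one_div, inv_pow]
        have e4 : (4 : ℝ) ^ m = 2 ^ m * 2 ^ m := by rw [← mul_pow]; norm_num
        rw [show (γ - 1) * (2 ^ m)⁻¹ * M * M = (γ - 1) * M * M / 2 ^ m by ring,
          le_div_iff₀ (by positivity)]
        nlinarith [pow_pos (show (0 : ℝ) < 4 by norm_num) m]
      linarith)
    have h3 : (γ * (1 / 2) ^ m / (β - γ)) • π v ∈ D K T m := (B m).2.2 fun y hy => by
      have := hv (δ • π y) fun k => by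
        rw [PiLp.smul_apply, smul_eq_mul, abs_mul, abs_of_pos hδ]
        exact (mul_le_mul_of_nonneg_left (m1 hy k) hδ.le).trans (hb k).2.2.1
      rw [real_inner_smul_left, hπ] at this
      rw [real_inner_smul_right]
      have h4 : γ * (1 / 2) ^ m / (β - γ) ≤ δ := by
        rw [le_div_iff₀' γ0] at hj
        rwa [div_le_iff₀' (sub_pos.2 h2)]
      have h5 : 0 ≤ γ * (1 / 2) ^ m / (β - γ) := by have := sub_pos.2 h2; positivity
      rcases le_total 0 (inner ℝ y (π v)) with p | p <;> nlinarith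
    convert D_cvx m hv' h3 (a := γ / β) (b := (β - γ) / β) (by positivity)
      (by have := sub_pos.2 h2; positivity) (by field_simp; ring) using 1
    have pp : π (π x) = x - x i • e := by rw [p0, p0]; simp [e]
    rw [map_smul, pp]
    have := sub_pos.2 h2
    match_scalars <;> field_simp <;> ring

end Pool.Agent.H.MP_808d7a_gt
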