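import Pool.Agent.H.MP_808d7a_gt.A

set_option autoImplicit false

namespace Pool.Agent.H.MP_808d7a_gt

open Set MeasureTheory Metric
open scoped Pointwise

variable {n : ℕ}

/-- origin-symmetric convex body -/
def SymBody (K : Set (EuclideanSpace ℝ (Fin n))) : Prop :=
  IsCompact K ∧ Convex ℝ K ∧ (interior K).Nonempty ∧ -K = K

/-- the best constant in dimension `n` -/
noncomputable def g (n : ℕ) : ℝ :=
  sInf {r | ∃ K T : Set (EuclideanSpace ℝ (Fin n)), SymBody K ∧ SymBody T ∧
    r = volume.real (G K T) / √(volume.real K * volume.real T)}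

theorem box_eq (b : Fin n → ℝ) : Box b = WithLp.ofLp ⁻¹' Icc (-b) b := by
  ext x
  simp only [Box, mem_ofPred_eq, abs_le, mem_preimage, mem_Icc, Pi.le_def, Pi.neg_apply, forall_and]

theorem box_vol {b : Fin n → ℝ} (hb : ∀ i, 0 ≤ b i) : volume.real (Box b) = ∏ i, 2 * b i := by
  rw [box_eq, Measure.real, (PiLp.volume_preserving_ofLp (Fin n)).measure_preimage
    measurableSet_Icc.nullMeasurableSet, Real.volume_Icc_pi_toReal fun i => by
      simpa using hb i]
  simp [two_mul]

theorem box_sym {b : Fin n → ℝ} (hb : ∀ i, 0 < b i) : SymBody (Box b) := by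
  refine ⟨?_, ?_, ⟨0, mem_interior_iff_mem_nhds.2 (Filter.eventually_all.2 fun i => ?_)⟩, ?_⟩
  · rw [box_eq]
    exact (EuclideanSpace.equiv (Fin n) ℝ).toHomeomorph.isCompact_preimage.2 isCompact_Icc
  · rw [box_eq]
    exact (convex_Icc _ _).linear_preimage (EuclideanSpace.equiv (Fin n) ℝ).toLinearMap
  · exact (ContinuousAt.eventually_lt (f := fun x : EuclideanSpace ℝ (Fin n) => |x i|)
      (g := fun _ => b i) (by fun_prop) continuousAt_const (by simpa using hb i)).mono
      fun _ => le_of_lt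
  · ext x
    simp [Box]

theorem g_le {K T : Set (EuclideanSpace ℝ (Fin n))} (hK : SymBody K) (hT : SymBody T) :
    g n ≤ volume.real (G K T) / √(volume.real K * volume.real T) := by
  refine csInf_le ⟨0, ?_⟩ ⟨_, _, hK, hT, rfl⟩
  rintro _ ⟨K, T, -, -, rfl⟩
  positivity

theorem upper (n : ℕ) : g n ≤ volume.real (ball (0 : EuclideanSpace ℝ (Fin n)) 1) / 2 ^ n := by
  have c : ContinuousWithinAt (fun β : ℝ => √β ^ n *
      volume.real (ball (0 : EuclideanSpace ℝ (Fin n)) 1) / 2 ^ n) (Ioi 1) 1 := by fun_prop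
  refine (ge_of_tendsto c (eventually_mem_nhdsWithin.mono fun β hβ => ?_)).trans_eq (by simp)
  obtain ⟨b, c, δ, m, hδ, hb, H⟩ := ind (n := n) Finset.univ β hβ
  have p : ∀ i, 0 < c i := fun i => (hb i).1.lt_of_ne fun h => by
    simpa [← h] using (hb i).2.2.2.1 (Finset.mem_univ i)
  have q : ∀ i, 0 < b i := fun i => (p i).trans_le (hb i).2.1
  refine (g_le (box_sym q) (box_sym p)).trans ?_
  rw [box_vol fun i => (q i).le, box_vol fun i => (p i).le, ← Finset.prod_mul_distrib,
    Finset.prod_congr rfl (g := fun _ => (2 : ℝ) ^ 2) fun i hi => by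
      linarith [(hb i).2.2.2.1 hi],
    Finset.prod_const, Finset.card_univ, Fintype.card_fin, ← pow_mul, mul_comm 2 n, pow_mul,
    Real.sqrt_sq (by positivity)]
  gcongr
  refine (measureReal_mono (fin (fun x hx i => (hx i).trans (hb i).2.1) hδ
    (zero_lt_one.trans hβ) (fun x hx i => ?_) H) measure_closedBall_lt_top.ne).trans_eq ?_
  · rw [PiLp.smul_apply, smul_eq_mul, abs_mul, abs_of_pos hδ]
    exact (mul_le_mul_of_nonneg_left (hx i) hδ.le).trans (hb i).2.2.1
  · rw [Measure.real, Measure.addHaar_closedBall _ _ (Real.sqrt_nonneg β), ENNReal.toReal_mul,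
      ENNReal.toReal_ofReal (by positivity), finrank_euclideanSpace_fin, Measure.real]

theorem vol_ball {b : ℝ} (hb : 0 < b) : volume.real (ball (0 : EuclideanSpace ℝ (Fin n)) 1) ≤
    Real.exp b * (Real.pi / b) ^ (n / 2 : ℝ) := by
  have e := GaussianFourier.integral_rexp_neg_mul_sq_norm (V := EuclideanSpace ℝ (Fin n)) hb
  rw [finrank_euclideanSpace_fin] at e
  have hi : Integrable (fun v : EuclideanSpace ℝ (Fin n) => Real.exp (-b * ‖v‖ ^ 2)) :=
    .of_integral_ne_zero (by rw [e]; positivity)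
  have h1 := setIntegral_ge_of_const_le_real (μ := volume) (s := ball 0 1) (c := Real.exp (-b))
    measurableSet_ball measure_ball_lt_top.ne (fun v hv => by
      have h2 : ‖v‖ < 1 := by simpa using hv
      have h3 : ‖v‖ ^ 2 ≤ 1 := pow_le_one₀ (norm_nonneg _) h2.le
      exact Real.exp_le_exp.mpr (by nlinarith)) hi.integrableOn
  have h3 := mul_le_mul_of_nonneg_left (h1.trans (setIntegral_le_integral hi
    (.of_forall fun v => (Real.exp_pos _).le))) (Real.exp_pos b).le
  rwa [← mul_assoc, ← Real.exp_add, add_neg_cancel, Real.exp_zero, one_mul, e] at h3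

theorem upper' (hn : 0 < n) : g n ≤ (√(Real.pi * Real.exp 1 / 2) / √n) ^ n := by
  have h : (0 : ℝ) < n := by positivity
  refine (upper n).trans ?_
  rw [div_le_iff₀ (by positivity)]
  refine (vol_ball (half_pos h)).trans_eq ?_
  rw [← Real.exp_one_rpow, ← Real.mul_rpow (by positivity) (by positivity), ← mul_pow,
    div_eq_inv_mul (n : ℝ), Real.rpow_mul_natCast (by positivity), ← one_div, ← Real.sqrt_eq_rpow,
    ← Real.sqrt_div' _ h.le, ← Real.sqrt_sq zero_le_two, ← Real.sqrt_mul (by positivity)]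
  congr 2
  field_simp
  ring

theorem no_c {c : ℝ} (hc : 0 < c) : ∃ n, g n < c ^ n := by
  obtain ⟨n, hn⟩ := exists_nat_gt (Real.pi * Real.exp 1 / 2 / c ^ 2)
  have h : (0 : ℝ) < n := lt_trans (by positivity) hn
  have h0 : 0 < n := by exact_mod_cast h
  refine ⟨n, (upper' h0).trans_lt (pow_lt_pow_left₀ ?_ (by positivity) h0.ne')⟩
  rw [← Real.sqrt_div' _ h.le, Real.sqrt_lt' hc, div_lt_iff₀ h]
  rwa [div_lt_iff₀' (by positivity)] at hn

end Pool.Agent.H.MP_808d7a_gt
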