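import Pool.Agent.H.MP_808d7a_gt.B

set_option autoImplicit false

namespace Pool.Agent.H.MP_808d7a_gt

open Set MeasureTheory Metric
open scoped Pointwise

variable {n : ℕ} {K T S S' : Set (EuclideanSpace ℝ (Fin n))}

theorem bip (hc : Convex ℝ S) (hcl : IsClosed S) (h0 : 0 ∈ S) : pol (pol S) ⊆ S := by
  intro x hx
  by_contra h
  obtain ⟨f, u, h1, h2⟩ := geometric_hahn_banach_closed_point hc hcl h
  have u0 : 0 < u := by simpa using h1 0 h0
  have := hx (u⁻¹ • (InnerProductSpace.toDual ℝ _).symm f) fun y hy => by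
    rw [real_inner_smul_right, real_inner_comm, InnerProductSpace.toDual_symm_apply,
      inv_mul_le_iff₀ u0]
    linarith [h1 y hy]
  rw [real_inner_smul_left, InnerProductSpace.toDual_symm_apply, inv_mul_le_iff₀ u0] at this
  linarith

theorem nrm {v : EuclideanSpace ℝ (Fin n)} {R : ℝ} (hR : 0 < R)
    (h : inner ℝ ((R * ‖v‖)⁻¹ • v) v ≤ 1) : ‖v‖ ≤ R := by
  rcases (norm_nonneg v).eq_or_lt with h0 | h0
  · linarith
  rw [real_inner_smul_left, real_inner_self_eq_norm_sq, inv_mul_le_iff₀ (by positivity)] at h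
  nlinarith

theorem nrm' {v : EuclideanSpace ℝ (Fin n)} (h : v ∈ pol (closedBall 0 1)) : ‖v‖ ≤ 1 :=
  nrm one_pos (h _ (by
    rw [mem_closedBall_zero_iff, norm_smul, one_mul, norm_inv, norm_norm]
    exact inv_mul_le_one_of_le₀ le_rfl (norm_nonneg _)))

theorem cpt (hK : IsCompact K ∧ Convex ℝ K ∧ 0 ∈ K) (hT : IsCompact T ∧ Convex ℝ T ∧ 0 ∈ T) (k : ℕ) :
    (IsCompact (AH K T k).1 ∧ Convex ℝ (AH K T k).1 ∧ 0 ∈ (AH K T k).1) ∧
      IsCompact (AH K T k).2 ∧ Convex ℝ (AH K T k).2 ∧ 0 ∈ (AH K T k).2 := by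
  induction k with
  | zero => exact ⟨hK, hT⟩
  | succ k ih =>
    obtain ⟨⟨a1, a2, a3⟩, b1, b2, b3⟩ := ih
    refine ⟨⟨(a1.add b1).smul _, (a2.add b2).smul _, mid.2 ⟨0, a3, 0, b3, by simp⟩⟩, ?_, pol_cvx,
      fun _ _ => by simp⟩
    obtain ⟨R, R0, hR⟩ := (a1.union b1).isBounded.subset_closedBall_lt 0 0
    refine (isCompact_closedBall 0 R).of_isClosed_subset ?_ fun z hz => ?_
    · simp only [AH, pol, ofPred_forall]
      exact isClosed_iInter fun _ => isClosed_iInter fun _ => isClosed_le (by fun_prop) (by fun_prop)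
    · have f : ∀ y ∈ (AH K T k).1 ∪ (AH K T k).2, inner ℝ y ((R * ‖z‖)⁻¹ • z) ≤ 1 := fun y hy => by
        rw [real_inner_smul_right]
        exact inv_mul_le_one_of_le₀ ((real_inner_le_norm y z).trans
          (mul_le_mul_of_nonneg_right (mem_closedBall_zero_iff.1 (hR hy)) (norm_nonneg z)))
          (by positivity)
      exact mem_closedBall_zero_iff.2 (nrm R0 (hz _ (mid.2 ⟨_, fun y hy => f y (.inl hy), _,
        fun y hy => f y (.inr hy), by module⟩)))

theorem scl {P : EuclideanSpace ℝ (Fin n) →ₗ[ℝ] EuclideanSpace ℝ (Fin n)} (h : MapsTo P (pol S) S')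
    {w : EuclideanSpace ℝ (Fin n)} {c : ℝ} (hc : 0 < c) (hw : ∀ a ∈ S, inner ℝ a w ≤ c) :
    c⁻¹ • P w ∈ S' := by
  rw [← map_smul]
  refine h fun a ha => ?_
  rw [real_inner_smul_right]
  exact inv_mul_le_one_of_le₀ (hw a ha) hc.le

theorem low (hK : IsCompact K ∧ Convex ℝ K ∧ 0 ∈ K) (hT : IsCompact T ∧ Convex ℝ T ∧ 0 ∈ T)
    {L : EuclideanSpace ℝ (Fin n) →ₗ[ℝ] EuclideanSpace ℝ (Fin n)}
    (h : MapsTo (L ∘ₗ L.adjoint) (pol K) T) : L '' closedBall 0 1 ⊆ G K T := by
  have hP : ∀ x y, inner ℝ ((L ∘ₗ L.adjoint) x) y = inner ℝ (L.adjoint x) (L.adjoint y) :=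
    fun x y => (LinearMap.adjoint_inner_right L _ _).symm
  have md : ∀ {k w a b}, w ∈ pol (AH K T (k + 1)).1 → a ∈ (AH K T k).1 → b ∈ (AH K T k).2 →
      inner ℝ a w + inner ℝ b w ≤ 2 := fun {k w a b} hw ha hb => by
    have := hw _ (mid.2 ⟨a, ha, b, hb, rfl⟩)
    rw [real_inner_smul_left, inner_add_left] at this
    linarith
  have I : ∀ k, MapsTo (L ∘ₗ L.adjoint) (pol (AH K T k).1) (AH K T k).2 := by
    intro k
    induction k with
    | zero => exact h
    | succ k ih =>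
      intro u hu w hw
      obtain ⟨a, ha, b, hb, rfl⟩ := mid.1 hw
      have h0 := md hu (cpt hK hT k).1.2.2 (ih ha)
      have h1 : inner ℝ b ((L ∘ₗ L.adjoint) u) ≤ 2 - inner ℝ ((L ∘ₗ L.adjoint) a) u :=
        le_of_forall_pos_le_add fun ε hε => by
          have p : 0 < 2 - inner ℝ ((L ∘ₗ L.adjoint) a) u + ε := by
            rw [inner_zero_left] at h0
            linarith
          have := hb _ (scl ih p fun a' ha' => by linarith [md hu ha' (ih ha)])
          rwa [real_inner_smul_left, inv_mul_le_iff₀ p, mul_one, real_inner_comm] at this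
      rw [real_inner_smul_left, inner_add_left, real_inner_comm _ a, hP, real_inner_comm, ← hP]
      linarith
  rintro _ ⟨y, hy, rfl⟩
  refine mem_iInter.2 fun k => ?_
  obtain ⟨a1, a2, a3⟩ := (cpt hK hT (k + 1)).1
  refine bip a2 a1.isClosed a3 fun w hw => ?_
  obtain ⟨c1, -, c3⟩ := (cpt hK hT k).1
  obtain ⟨a, ha, hm⟩ := c1.exists_isMaxOn ⟨0, c3⟩ (f := fun a => inner ℝ a w) (by fun_prop)
  have s0 : 0 ≤ inner ℝ a w := by simpa using hm c3
  have : ‖L.adjoint w‖ ^ 2 ≤ 1 := le_of_forall_pos_le_add fun ε hε => by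
    have p : 0 < inner ℝ a w + ε / 2 := by positivity
    have := md hw ha (scl (I k) (w := w) p fun a' ha' => by
      linarith [show inner ℝ a' w ≤ inner ℝ a w from hm ha'])
    rw [real_inner_smul_left, hP, real_inner_self_eq_norm_sq, ← le_sub_iff_add_le',
      inv_mul_le_iff₀ p] at this
    nlinarith [sq_nonneg (inner ℝ a w - 1)]
  rw [← LinearMap.adjoint_inner_left]
  refine (real_inner_le_norm _ _).trans (mul_le_one₀ ?_ (norm_nonneg _) (mem_closedBall_zero_iff.1 hy))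
  exact (pow_le_one_iff_of_nonneg (norm_nonneg _) two_ne_zero).1 this

theorem SymBody.ball (h : SymBody K) : ∃ ε > 0, closedBall 0 ε ⊆ K := by
  obtain ⟨x, hx⟩ := h.2.2.1
  obtain ⟨ε, ε0, hε⟩ := nhds_basis_closedBall.mem_iff.1 (mem_interior_iff_mem_nhds.1 hx)
  refine ⟨ε, ε0, fun y hy => ?_⟩
  have hc := h.2.1
  have := hc (hε (a := x + y) (by simpa using hy)) (show -(x - y) ∈ K from h.2.2.2 ▸
    neg_mem_neg.2 (hε (by simpa using hy))) (a := 1 / 2) (b := 1 / 2) (by norm_num) (by norm_num)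
    (by norm_num)
  rwa [show (1 / 2 : ℝ) • (x + y) + (1 / 2 : ℝ) • -(x - y) = y by module] at this

theorem SymBody.ok (h : SymBody K) : IsCompact K ∧ Convex ℝ K ∧ 0 ∈ K :=
  let ⟨_, h1, h2⟩ := h.ball
  ⟨h.1, h.2.1, h2 (mem_closedBall_self h1.le)⟩

theorem john (h : SymBody K) : ∃ A : EuclideanSpace ℝ (Fin n) →ₗ[ℝ] EuclideanSpace ℝ (Fin n),
    A.det ≠ 0 ∧ MapsTo A (closedBall 0 1) K ∧ K ⊆ A '' closedBall 0 √n := by
  obtain ⟨ε, ε0, hε⟩ := h.ball
  obtain ⟨R, R0, hR⟩ := h.1.isBounded.subset_closedBall_lt 0 0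
  have hC : IsCompact {A : EuclideanSpace ℝ (Fin n) →L[ℝ] EuclideanSpace ℝ (Fin n) |
      MapsTo A (closedBall 0 1) K} := by
    have := FiniteDimensional.proper_real (EuclideanSpace ℝ (Fin n) →L[ℝ] EuclideanSpace ℝ (Fin n))
    refine (isCompact_closedBall 0 R).of_isClosed_subset ?_ fun A hA => ?_
    · simp only [MapsTo, ofPred_forall]
      exact isClosed_iInter fun _ => isClosed_iInter fun _ => h.1.isClosed.preimage (by fun_prop)
    · exact mem_closedBall_zero_iff.2 (A.opNorm_le_of_unit_norm R0.le fun x hx =>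
        mem_closedBall_zero_iff.1 (hR (hA (mem_closedBall_zero_iff.2 hx.le))))
  obtain ⟨A', hA, hm⟩ := hC.exists_isMaxOn ⟨0, fun _ _ => h.ok.2.2⟩
    ContinuousLinearMap.continuous_det.abs.continuousOn
  replace hm : ∀ B : EuclideanSpace ℝ (Fin n) →ₗ[ℝ] EuclideanSpace ℝ (Fin n),
      MapsTo B (closedBall 0 1) K → |B.det| ≤ |A'.toLinearMap.det| :=
    fun B hB => hm (a := B.toContinuousLinearMap) hB
  replace hA : MapsTo A'.toLinearMap (closedBall 0 1) K := hA
  generalize A'.toLinearMap = A at hA hm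
  have d0 : A.det ≠ 0 := abs_pos.1 <| lt_of_lt_of_le (by simp; positivity) <|
    hm (ε • LinearMap.id) fun y hy => hε (by
      rw [mem_closedBall_zero_iff] at hy ⊢
      simpa [norm_smul, abs_of_pos ε0] using mul_le_of_le_one_right ε0.le hy)
  refine ⟨A, d0, hA, fun x hx => ?_⟩
  obtain ⟨z, rfl : A z = x⟩ := (LinearMap.equivOfDetNeZero A d0).surjective x
  refine ⟨z, mem_closedBall_zero_iff.2 (Real.le_sqrt_of_sq_le ?_), rfl⟩
  have key : ∀ t : ℝ, 0 < t → (1 + t * ‖z‖ ^ 2) ^ 2 ≤ (1 + 2 * t + t ^ 2 * ‖z‖ ^ 2) ^ n := by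
    intro t ht
    have q0 : 0 < 1 + 2 * t + t ^ 2 * ‖z‖ ^ 2 := by positivity
    have := hm (A ∘ₗ ((√(1 + 2 * t + t ^ 2 * ‖z‖ ^ 2))⁻¹ •
      LinearMap.transvection (t • innerₗ _ z) z)) fun y hy =>
        bip h.2.1 h.1.isClosed h.ok.2.2 fun u hu => by
          have v1 : ‖A.adjoint u‖ ≤ 1 := nrm' fun y hy => by
            rw [LinearMap.adjoint_inner_right]
            exact hu _ (hA hy)
          have v2 : |inner ℝ z (A.adjoint u)| ≤ 1 := by
            rw [LinearMap.adjoint_inner_right, abs_le, neg_le, ← inner_neg_left]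
            exact ⟨hu _ (h.2.2.2 ▸ neg_mem_neg.2 hx), hu _ hx⟩
          rw [LinearMap.comp_apply, ← LinearMap.adjoint_inner_left]
          generalize A.adjoint u = v at v1 v2
          have e : inner ℝ v (LinearMap.transvection (t • innerₗ _ z) z y) =
              inner ℝ (v + (t * inner ℝ z v) • z) y := by
            simp only [LinearMap.transvection.apply, LinearMap.smul_apply, innerₗ_apply_apply,
              inner_add_left, inner_add_right, real_inner_smul_left, real_inner_smul_right,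
              smul_eq_mul, real_inner_comm z v]
            ring
          rw [LinearMap.smul_apply, real_inner_smul_right, e]
          refine inv_mul_le_one_of_le₀ ((real_inner_le_norm _ _).trans ((mul_le_of_le_one_right
            (norm_nonneg _) (mem_closedBall_zero_iff.1 hy)).trans (Real.le_sqrt_of_sq_le ?_)))
            (Real.sqrt_nonneg _)
          rw [norm_add_sq_real, real_inner_smul_right, norm_smul, mul_pow, Real.norm_eq_abs, sq_abs,
            real_inner_comm z v]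
          have := (sq_le_one_iff_abs_le_one _).2 v2
          have := pow_le_one₀ (n := 2) (norm_nonneg v) v1
          have : 0 ≤ t ^ 2 * ‖z‖ ^ 2 := by positivity
          nlinarith
    rw [LinearMap.det_comp, abs_mul, mul_le_iff_le_one_right (abs_pos.2 d0), LinearMap.det_smul,
      LinearMap.transvection.det, finrank_euclideanSpace_fin, ← sq_le_one_iff_abs_le_one, mul_pow,
      ← pow_mul, mul_comm n 2, pow_mul, inv_pow, Real.sq_sqrt q0.le, inv_pow,
      inv_mul_le_iff₀ (by positivity), mul_one] at this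
    simpa using this
  have hd : HasDerivAt (fun t : ℝ => (1 + 2 * t + t ^ 2 * ‖z‖ ^ 2) ^ n - (1 + t * ‖z‖ ^ 2) ^ 2)
      (2 * n - 2 * ‖z‖ ^ 2) 0 :=
    ((((((hasDerivAt_id' (0 : ℝ)).const_mul 2).const_add 1).fun_add
      (((hasDerivAt_id' (0 : ℝ)).fun_pow 2).mul_const _)).fun_pow n).fun_sub
      ((((hasDerivAt_id' (0 : ℝ)).mul_const _).const_add 1).fun_pow 2)).congr_deriv (by simp; ring)
  have := ge_of_tendsto hd.tendsto_slope_zero_right (eventually_mem_nhdsWithin.mono fun t ht => by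
    have := key t ht
    simp only [zero_add, smul_eq_mul]
    exact mul_nonneg (inv_nonneg.2 (le_of_lt ht)) (by simpa using this))
  linarith

open Matrix in
open scoped MatrixOrder in
theorem polar {A A' : Matrix (Fin n) (Fin n) ℝ} (h : A.det ≠ 0) (h' : A'.det ≠ 0) :
    ∃ L U : Matrix (Fin n) (Fin n) ℝ, L * Lᴴ = A' * U * Aᴴ ∧ Uᴴ * U = 1 := by
  have hM : 0 ≤ A⁻¹ * A' * (A⁻¹ * A')ᴴ := (posSemidef_self_mul_conjTranspose _).nonneg
  have e1 := CFC.sqrt_mul_sqrt_self _ hM
  have hQ := CFC.sqrt_nonneg (A⁻¹ * A' * (A⁻¹ * A')ᴴ)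
  generalize CFC.sqrt (A⁻¹ * A' * (A⁻¹ * A')ᴴ) = Q at e1 hQ
  have e2 := CFC.sqrt_mul_sqrt_self _ hQ
  have sR : (CFC.sqrt Q)ᴴ = CFC.sqrt Q := (CFC.sqrt_nonneg Q).posSemidef.1
  have sQ : Qᴴ = Q := hQ.posSemidef.1
  refine ⟨A * CFC.sqrt Q, A'⁻¹ * A * Q, ?_, mul_eq_one_comm.1 ?_⟩
  · rw [conjTranspose_mul, sR, mul_assoc, ← mul_assoc _ _ Aᴴ, e2, mul_assoc A'⁻¹,
      mul_nonsing_inv_cancel_left _ _ h'.isUnit, mul_assoc]
  · have w : A'⁻¹ * A * (A⁻¹ * A') = 1 := by
      rw [mul_assoc, mul_nonsing_inv_cancel_left _ _ h.isUnit, nonsing_inv_mul _ h'.isUnit]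
    rw [conjTranspose_mul, sQ, mul_assoc, ← mul_assoc Q, e1, mul_assoc (A⁻¹ * A'),
      ← conjTranspose_mul, w, ← mul_assoc, w, conjTranspose_one, mul_one]

theorem lower (hn : 0 < n) : (1 / √n) ^ n ≤ g n := by
  refine le_csInf ⟨_, _, _, box_sym (b := 1) fun _ => one_pos, box_sym (b := 1) fun _ => one_pos,
    rfl⟩ ?_
  rintro _ ⟨K, T, hK, hT, rfl⟩
  obtain ⟨A, a1, a2, a3⟩ := john hK
  obtain ⟨B, b1, b2, b3⟩ := john hT
  obtain ⟨A, rfl⟩ := Matrix.toEuclideanLin.surjective A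
  obtain ⟨B, rfl⟩ := Matrix.toEuclideanLin.surjective B
  rw [LinearMap.det_toLpLin] at a1 b1
  obtain ⟨L, U, e1, e2⟩ := polar a1 b1
  have V : ∀ (M : Matrix (Fin n) (Fin n) ℝ) (r : ℝ), 0 ≤ r → volume.real (M.toEuclideanLin ''
      closedBall 0 r) = |M.det| * (r ^ n * volume.real (ball (0 : EuclideanSpace ℝ (Fin n)) 1)) :=
    fun M r hr => by
      rw [Measure.real, Measure.addHaar_image_linearMap, Measure.addHaar_closedBall _ _ hr,
        ENNReal.toReal_mul, ENNReal.toReal_mul, ENNReal.toReal_ofReal (by positivity),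
        ENNReal.toReal_ofReal (by positivity), finrank_euclideanSpace_fin, LinearMap.det_toLpLin,
        Measure.real]
  have F : ∀ (M : Matrix (Fin n) (Fin n) ℝ) (r : ℝ), volume (M.toEuclideanLin ''
      closedBall 0 r) ≠ ⊤ := fun M r =>
    ((isCompact_closedBall 0 r).image (LinearMap.continuous_of_finiteDimensional _)).measure_ne_top
  have h1 := (measureReal_mono a3 (F _ _)).trans_eq (V _ _ (Real.sqrt_nonneg _))
  have h2 := (measureReal_mono b3 (F _ _)).trans_eq (V _ _ (Real.sqrt_nonneg _))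
  have h3 := (V L 1 zero_le_one).ge.trans (measureReal_mono (low hK.ok hT.ok fun u hu => by
    rw [← Matrix.toEuclideanLin_conjTranspose_eq_adjoint, ← Matrix.toLpLin_mul_same, e1,
      Matrix.toLpLin_mul_same, Matrix.toLpLin_mul_same]
    refine b2 (mem_closedBall_zero_iff.2 ?_)
    have v1 : ‖A.toEuclideanLin.adjoint u‖ ≤ 1 := nrm' fun y hy => by
      rw [LinearMap.adjoint_inner_right]
      exact hu _ (a2 hy)
    rw [← Matrix.toEuclideanLin_conjTranspose_eq_adjoint] at v1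
    refine le_trans (le_of_eq ?_) v1
    rw [← sq_eq_sq₀ (norm_nonneg _) (norm_nonneg _), ← real_inner_self_eq_norm_sq,
      ← real_inner_self_eq_norm_sq, ← LinearMap.adjoint_inner_right,
      ← Matrix.toEuclideanLin_conjTranspose_eq_adjoint, ← LinearMap.comp_apply,
      ← Matrix.toLpLin_mul_same, e2, Matrix.toLpLin_one, LinearMap.id_apply])
    (ne_top_of_le_ne_top (cpt hK.ok hT.ok 1).1.1.measure_ne_top (measure_mono (iInter_subset _ 0))))
  have d : |L.det| * |L.det| = |A.det| * |B.det| := by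
    have d1 := congrArg (fun M => |Matrix.det M|) e1
    have d2 := congrArg Matrix.det e2
    simp only [Matrix.det_mul, Matrix.det_conjTranspose, star_trivial, Matrix.det_one, abs_mul]
      at d1 d2
    rw [d1, (abs_eq zero_le_one).2 (mul_self_eq_one_iff.1 d2), mul_one, mul_comm]
  have P : ∀ S : Set (EuclideanSpace ℝ (Fin n)), SymBody S → 0 < volume.real S := fun S hS =>
    ENNReal.toReal_pos (Measure.measure_pos_of_nonempty_interior _ hS.2.2.1).ne' hS.1.measure_ne_top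
  have p1 := P K hK
  have p2 := P T hT
  rw [le_div_iff₀ (by positivity), one_div, inv_pow, inv_mul_le_iff₀ (by positivity)]
  refine Real.sqrt_le_iff.2 ⟨by positivity, (mul_le_mul h1 h2 p2.le (by positivity)).trans ?_⟩
  rw [one_pow, one_mul] at h3
  rw [mul_mul_mul_comm, ← d, mul_mul_mul_comm, ← sq, mul_left_comm]
  gcongr

end Pool.Agent.H.MP_808d7a_gt
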